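import Pool.Agent.Run7.h435.LDg

/-!
**The exponential moments and the large deviations of the number of zeros of zeta in a window have the
exponents of the sine process.**  Under RH.

Let `W T t x` be the number of zeros with ordinates in `(t, t + 2 π x / log T]` (the window of `x` mean
spacings after `t`), minus `x`.  As `x → ∞` after `T → ∞`, the mean over `T < t ≤ 2 T` of `exp (l W)` is
`x ^ (l ^ 2 / (2 π ^ 2) + o(1))` for every real `l`, and the proportion of the `t` with `W ≥ y log x`, and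
with `W ≤ - y log x`, is `x ^ (- π ^ 2 y ^ 2 / 2 + o(1))` for every `y ≥ 0`.

For the sine process the exponential moments are `e ^ (- l x)` times the Fredholm determinant
`det (1 + (e ^ l - 1) K_x)`, the generating function of the integrals over `[0, x] ^ k` of the `k`-level
correlation functions for all `k` at once, and these are the exponents of its Fisher-Hartwig asymptotics.
-/

set_option autoImplicit false

open Filter MeasureTheory

namespace Pool.Agent.Results.MP_67227b_nt.ExponentialMoments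

/-- multiplicity of `s` as a zero of the Riemann zeta function (order of vanishing at `s`) -/
noncomputable def zmult (s : ℂ) : ℕ := analyticOrderNatAt riemannZeta s

/-- the number of nontrivial zeros of `ζ` with ordinate in `(0, t]`, with multiplicity -/
noncomputable def NZ (t : ℝ) : ℕ :=
  ∑ᶠ s ∈ {s : ℂ | riemannZeta s = 0 ∧ 0 < s.re ∧ s.re < 1 ∧ 0 < s.im ∧ s.im ≤ t}, zmult s

/-- the deviation: the number of zeros with ordinates in `(t, t + 2 π x / log T]`, minus `x` -/
noncomputable def W (T t x : ℝ) : ℝ := (NZ (t + 2 * Real.pi * x / Real.log T) : ℝ) - NZ t - x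

/-- Assume RH.  For every `ε > 0`, for all large `x`, for all large `T`: the mean of `exp (l W)` is
`x ^ (l ^ 2 / (2 π ^ 2) ± ε)`, for every real `l`, and the proportion of the `t ∈ (T, 2 T]` with
`W ≥ y log x`, and that with `W ≤ - y log x`, is `x ^ (- π ^ 2 y ^ 2 / 2 ± ε)`, for every `y ≥ 0`. -/
theorem result (hRH : RiemannHypothesis) :
    (∀ l ε : ℝ, 0 < ε → ∀ᶠ x : ℝ in atTop, ∀ᶠ T : ℝ in atTop,
      x ^ (l ^ 2 / (2 * Real.pi ^ 2) - ε) ≤ 1 / T * ∫ t in T..(2 * T), Real.exp (l * W T t x) ∧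
      1 / T * ∫ t in T..(2 * T), Real.exp (l * W T t x) ≤ x ^ (l ^ 2 / (2 * Real.pi ^ 2) + ε)) ∧
    (∀ y ε : ℝ, 0 ≤ y → 0 < ε → ∀ᶠ x : ℝ in atTop, ∀ᶠ T : ℝ in atTop,
      (x ^ (-(Real.pi ^ 2 * y ^ 2 / 2) - ε) ≤
        1 / T * (volume {t : ℝ | T < t ∧ t ≤ 2 * T ∧ y * Real.log x ≤ W T t x}).toReal ∧
      1 / T * (volume {t : ℝ | T < t ∧ t ≤ 2 * T ∧ y * Real.log x ≤ W T t x}).toReal ≤
        x ^ (-(Real.pi ^ 2 * y ^ 2 / 2) + ε)) ∧
      (x ^ (-(Real.pi ^ 2 * y ^ 2 / 2) - ε) ≤
        1 / T * (volume {t : ℝ | T < t ∧ t ≤ 2 * T ∧ y * Real.log x ≤ -W T t x}).toReal ∧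
      1 / T * (volume {t : ℝ | T < t ∧ t ≤ 2 * T ∧ y * Real.log x ≤ -W T t x}).toReal ≤
        x ^ (-(Real.pi ^ 2 * y ^ 2 / 2) + ε))) :=
  ⟨fun l _ hε => Run7.h435.MD.moments_W (Run7.h435.MD.rhs_of_rh hRH) l hε,
    fun _ _ hy hε => Run7.h435.MD.deviations_W (Run7.h435.MD.rhs_of_rh hRH) hy hε⟩

end Pool.Agent.Results.MP_67227b_nt.ExponentialMoments
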