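import Pool.Agent.Results.MP_67227b_nt.PatternsInTranslates
import Pool.Agent.Run7.h587.DistVol

/-!
# Szemerédi's theorem for the zeros: patterns of zeros along finite sums, unconditionally

No hypothesis is assumed.  All distances are measured in mean spacings.  `N_k(T; B)` is the counting
function of the problem.

1. For all `k` and `r > 0` (however small) there are `n` and `c > 0` such that for every family of `n`
vectors `v_1, …, v_n` of `ℝ^k` (of size at most `κ T log T`, with increasing entries at distances at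
least `r`) there is a nonempty set `J` of indices such that the point `x = ∑_{j ∈ J} v_j` satisfies
`N_k(T; B) ≥ c T log T` for the box `B` of half side `r` around the differences `x_a - x_k`, a lower
bound of the order predicted by the sine kernel.  Moreover at least `c T log T` different simple
critical zeros in `(0, T]` are the first members of families of `k` simple critical zeros with
differences within `r` of those of `x`.
2. In particular for every set `x_1 < … < x_k` of numbers, at distances at least `r`, there is a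
multiple `j x`, `1 ≤ j ≤ D(k, r)`, with the property of 1.  So, for `x_a = a d`: for a positive
proportion of the zeros `γ` there are zeros within `r` mean spacings of all the points
`γ + j d, γ + 2 j d, …, γ + (k-1) j d`, for some `j ≤ D(k, r)`.
3. The same holds for the simple critical zeros of `s` primitive Dirichlet L-functions at once, with
the same set `J` for all of them, in all intervals `(T, T + H]`, `T ^ h ≤ H ≤ T`, if `c(h) < 2` (this
is true for `h` near `1`: `c(1) = 1.3274…` is the Montgomery-Taylor constant), for arbitrary vectors.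

The starting result `PatternsInTranslates` gives `k` of `m` given numbers, with no control which ones;
the starting library treats three-term progressions (`TH300/ZS/Fin`, Roth's theorem).

Idea of the proof.  By the trace inequality with the Montgomery-Taylor kernel (starting library
`TH300/ZS`), the union of the intervals of length `r` mean spacings centred at the simple critical
zeros has density at least `δ = (2 - c(h) - ε) r`.  For a word `w` of length `n` over an alphabet with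
`k` letters let `a_w = ∑_j v_j(w_j)`.  For each L-function, the set of the words `w` such that there is a
zero near `t + a_w` is a random set of words (`t` being random), which contains each word with
probability at least `δ / 4`.  The density Hales-Jewett theorem (starting library `H602R3/DHJ`), applied
to the intersections of independent such sets for the `s` L-functions, gives a combinatorial line
which is contained in each of the random sets with positive probability.  The active coordinates of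
the line are `J`.
-/

set_option autoImplicit false

open Filter Topology Complex MeasureTheory

namespace Pool.Agent.Results.MP_67227b_nt.FiniteSumPatterns

/-- the nontrivial zeros of `F` with ordinate in `(T₁, T₂]` -/
def zeros (F : ℂ → ℂ) (T₁ T₂ : ℝ) : Set ℂ :=
  {s : ℂ | F s = 0 ∧ 0 < s.re ∧ s.re < 1 ∧ T₁ < s.im ∧ s.im ≤ T₂}

/-- the multiplicity of a zero -/
noncomputable def mult (F : ℂ → ℂ) (s : ℂ) : ℕ := analyticOrderNatAt F s

/-- `x` is the ordinate in `(T₁, T₂]` of a simple zero of `F` on the critical line -/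
def IsSimpleOrd (F : ℂ → ℂ) (T₁ T₂ x : ℝ) : Prop :=
  (1 / 2 + x * I : ℂ) ∈ zeros F T₁ T₂ ∧ mult F (1 / 2 + x * I : ℂ) = 1

/-- the number of the ordinates `t` in `(T₁, T₂]` of simple zeros of `F` on the critical line at which
a pattern `x` starts: there are such ordinates `g_0 = t, g_1, …, g_k` with all the normalised
differences `(g_a - g_b) * log τ / 2π` within `r` of `x_a - x_b` -/
noncomputable def Starts (F : ℂ → ℂ) (τ T₁ T₂ r : ℝ) {k : ℕ} (x : Fin (k + 1) → ℝ) : ℕ :=
  {t : ℝ | ∃ g : Fin (k + 1) → ℝ, g 0 = t ∧ (∀ a, IsSimpleOrd F T₁ T₂ (g a)) ∧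
    ∀ a b, |(g a - g b) * Real.log τ / (2 * Real.pi) - (x a - x b)| < r}.ncard

/-- the number of nontrivial zeros of `ζ` with ordinate in `(0, t]`, with multiplicity -/
noncomputable def NZ (t : ℝ) : ℕ := ∑ᶠ s ∈ zeros riemannZeta 0 t, mult riemannZeta s

/-- for `n ≥ 1`: the `n`-th positive ordinate `γ n` of a nontrivial zero of `ζ`, the ordinates being
listed in nondecreasing order and repeated according to multiplicity -/
noncomputable def γ (n : ℕ) : ℝ := sInf {t : ℝ | n ≤ NZ t}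

/-- `N_{k+1}(T; B)` with `B = ∏ [α_l, β_l]`, `l < k`: the number of `(k+1)`-tuples of pairwise
distinct indices with ordinates at most `T` whose normalised differences with the last ordinate
lie in the box `B` -/
noncomputable def Nk (k : ℕ) (T : ℝ) (α β : Fin k → ℝ) : ℕ :=
  {j : Fin (k + 1) → ℕ | Function.Injective j ∧ (∀ i, 1 ≤ j i ∧ γ (j i) ≤ T) ∧
    ∀ i : Fin k, (γ (j i.castSucc) - γ (j (Fin.last k))) * (Real.log T / (2 * Real.pi)) ∈
      Set.Icc (α i) (β i)}.ncard

/-- the Montgomery-Taylor constant -/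
noncomputable def cMT : ℝ :=
  Real.sqrt 2 * Real.tan (1 / Real.sqrt 2) / (1 + Real.tan (1 / Real.sqrt 2) / Real.sqrt 2)

/-- the mean square of the Montgomery-Taylor window, `1.0062...` -/
noncomputable def R0 : ℝ :=
  (1 + Real.sin (Real.sqrt 2) / Real.sqrt 2) / (4 * Real.sin (1 / Real.sqrt 2) ^ 2)

/-- the constant for intervals of length `T^h`; `c 1 = cMT⁻¹ = 1.3274...` -/
noncomputable def c (h : ℝ) : ℝ := R0 / h + h * (cMT⁻¹ - R0)

section proof

open Pool.Agent.W201 (UU)
open Pool.Agent.Run7.h587.DHZ (bs)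

lemma Nk_eq (k : ℕ) (T : ℝ) (α β : Fin k → ℝ) : PatternsInTranslates.Nk k T α β = Nk k T α β := rfl

lemma c_eq' (h : ℝ) : PatternsInTranslates.c h = c h := rfl

lemma P_mono {F : ℂ → ℂ} {T₁ T₂ : ℝ} (hfin : (PatternsInTranslates.zeros F T₁ T₂).Finite)
    (τ : ℝ) {r r' : ℝ} (hr : r' ≤ r) {m : ℕ} (a : Fin m → ℝ) (I : Finset (Fin m)) :
    PatternsInTranslates.P F τ T₁ T₂ r' a I ≤ PatternsInTranslates.P F τ T₁ T₂ r a I := by
  unfold PatternsInTranslates.P
  refine Set.ncard_le_ncard ?_ (PatternsInTranslates.P_finite hfin τ r a I)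
  rintro x ⟨h1, h2⟩
  exact ⟨h1, fun i j => (h2 i j).trans_le hr⟩

lemma Starts_finite {F : ℂ → ℂ} {T₁ T₂ : ℝ} (hfin : (PatternsInTranslates.zeros F T₁ T₂).Finite)
    (τ r : ℝ) {k : ℕ} (x : Fin (k + 1) → ℝ) :
    {t : ℝ | ∃ g : Fin (k + 1) → ℝ, g 0 = t ∧ (∀ a, IsSimpleOrd F T₁ T₂ (g a)) ∧
    ∀ a b, |(g a - g b) * Real.log τ / (2 * Real.pi) - (x a - x b)| < r}.Finite := by
  refine (PatternsInTranslates.ord_finite hfin).subset ?_
  rintro t ⟨g, rfl, h, -⟩
  exact h 0

lemma Starts_mono {F : ℂ → ℂ} {T₁ T₂ : ℝ} (hfin : (PatternsInTranslates.zeros F T₁ T₂).Finite)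
    (τ : ℝ) {r r' : ℝ} (hr : r' ≤ r) {k : ℕ} (x : Fin (k + 1) → ℝ) :
    Starts F τ T₁ T₂ r' x ≤ Starts F τ T₁ T₂ r x := by
  unfold Starts
  refine Set.ncard_le_ncard ?_ (Starts_finite hfin τ r x)
  rintro t ⟨g, h0, h1, h2⟩
  exact ⟨g, h0, h1, fun i j => (h2 i j).trans_le hr⟩

lemma aux {τ r : ℝ} (hτ : 1 < τ) {y z : ℝ}
    (h : |y * (2 * Real.pi / Real.log τ)| < r * (2 * Real.pi / Real.log τ))
    (hz : y = z) : |z| < r := by
  have hpi := Real.pi_pos
  have hlog : 0 < Real.log τ := Real.log_pos hτ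
  have hσ0 : 0 < 2 * Real.pi / Real.log τ := by positivity
  rw [abs_mul, abs_of_pos hσ0] at h
  rw [← hz]
  exact lt_of_mul_lt_mul_right h hσ0.le

lemma bs_diff {τ r : ℝ} (hτ : 1 < τ) {k : ℕ} (x : Fin (k + 1) → ℝ) {g : Fin (k + 1) → ℝ}
    (hg : ∀ a a', |g a + (0 - x a) * (2 * Real.pi / Real.log τ) -
      (g a' + (0 - x a') * (2 * Real.pi / Real.log τ))| < r * (2 * Real.pi / Real.log τ))
    (a b : Fin (k + 1)) :
    |(g a - g b) * Real.log τ / (2 * Real.pi) - (x a - x b)| < r := by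
  have hpi := Real.pi_pos
  have hlog : 0 < Real.log τ := Real.log_pos hτ
  have h1 := hg a b
  have e : g a + (0 - x a) * (2 * Real.pi / Real.log τ) -
      (g b + (0 - x b) * (2 * Real.pi / Real.log τ)) =
      ((g a - g b) * Real.log τ / (2 * Real.pi) - (x a - x b)) *
        (2 * Real.pi / Real.log τ) := by
    field_simp
    ring
  rw [e] at h1
  exact aux hτ h1 rfl

lemma bs_le_Starts {F : ℂ → ℂ} {T₁ T₂ : ℝ} (hfin : (PatternsInTranslates.zeros F T₁ T₂).Finite)
    {τ : ℝ} (hτ : 1 < τ) (r : ℝ) {k : ℕ} (x : Fin (k + 1) → ℝ) {S : Finset ℝ}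
    (hS : ∀ y ∈ S, PatternsInTranslates.IsSimpleOrd F T₁ T₂ y) :
    (bs S (fun a => (0 - x a) * (2 * Real.pi / Real.log τ))
      (r * (2 * Real.pi / Real.log τ))).card ≤ Starts F τ T₁ T₂ r x := by
  classical
  unfold Starts bs
  rw [← Set.ncard_coe_finset]
  refine Set.ncard_le_ncard ?_ (Starts_finite hfin τ r x)
  intro t ht
  rw [Finset.mem_coe, Finset.mem_filter] at ht
  obtain ⟨-, g, h0, h1, h2⟩ := ht
  exact ⟨g, h0, fun a => hS _ (h1 a), fun a b => bs_diff hτ x h2 a b⟩

lemma bs_le_P {F : ℂ → ℂ} {T₁ T₂ : ℝ} (hfin : (PatternsInTranslates.zeros F T₁ T₂).Finite)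
    {τ : ℝ} (hτ : 1 < τ) (r : ℝ) {k : ℕ} (x : Fin (k + 1) → ℝ) {S : Finset ℝ}
    (hS : ∀ y ∈ S, PatternsInTranslates.IsSimpleOrd F T₁ T₂ y) :
    (bs S (fun a => (0 - x a) * (2 * Real.pi / Real.log τ))
      (r * (2 * Real.pi / Real.log τ))).card ≤
      PatternsInTranslates.P F τ T₁ T₂ r x Finset.univ := by
  classical
  have h : ∀ t, ∃ g : Fin (k + 1) → ℝ,
      t ∈ bs S (fun a => (0 - x a) * (2 * Real.pi / Real.log τ))
        (r * (2 * Real.pi / Real.log τ)) → g 0 = t ∧ (∀ a, g a ∈ S) ∧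
      ∀ a b, |(g a - g b) * Real.log τ / (2 * Real.pi) - (x a - x b)| < r := by
    intro t
    by_cases ht : t ∈ bs S (fun a => (0 - x a) * (2 * Real.pi / Real.log τ))
        (r * (2 * Real.pi / Real.log τ))
    · unfold bs at ht
      rw [Finset.mem_filter] at ht
      obtain ⟨-, g, h0, h1, h2⟩ := ht
      exact ⟨g, fun _ => ⟨h0, h1, fun a b => bs_diff hτ x h2 a b⟩⟩
    · exact ⟨fun _ => 0, fun h => absurd h ht⟩
  choose G hG using h
  unfold PatternsInTranslates.P
  rw [← Set.ncard_coe_finset]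
  refine Set.ncard_le_ncard_of_injOn (fun t i => G t i.1) ?_ ?_
    (PatternsInTranslates.P_finite hfin τ r x Finset.univ)
  · intro t ht
    obtain ⟨-, h1, h2⟩ := hG t ht
    exact ⟨fun i => hS _ (h1 _), fun i j => h2 _ _⟩
  · intro t ht t' ht' he
    have h1 := congrFun he ⟨0, Finset.mem_univ 0⟩
    simp only at h1
    rw [(hG t ht).1, (hG t' ht').1] at h1
    exact h1

/-- the common step -/
lemma step {k s : ℕ} {δ : ℝ} {N : ℕ} {c₁ : ℝ} (hc₁ : 0 < c₁)
    (h : ∀ (S : Fin s → Finset ℝ) (A H w : ℝ), 0 < H → 0 < w → w ≤ H →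
      (∀ i, ∀ x ∈ S i, A ≤ x ∧ x ≤ A + H) →
      (∀ i, δ * H ≤ (volume (UU (w / 2) (S i))).toReal) →
      ∀ v : Fin N → Fin (k + 1) → ℝ, (∀ j a, N * |v j a| ≤ H) →
      ∃ J : Finset (Fin N), J.Nonempty ∧ ∀ i, c₁ * (H / w) ≤
        ((bs (S i) (fun a => -∑ j ∈ J, v j a) w).card : ℝ))
    {F : Fin s → ℂ → ℂ} {τ T₁ H r : ℝ}
    (hfin : ∀ i, (PatternsInTranslates.zeros (F i) T₁ (T₁ + H)).Finite) (hτ : 1 < τ)
    (hH : 0 < H) (hr : 0 < r) (hrH : r * (2 * Real.pi / Real.log τ) ≤ H)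
    (S : Fin s → Finset ℝ)
    (hS : ∀ i, ∀ x ∈ S i, PatternsInTranslates.IsSimpleOrd (F i) T₁ (T₁ + H) x)
    (hU : ∀ i, δ * H ≤ (volume (UU (r * (2 * Real.pi / Real.log τ) / 2) (S i))).toReal)
    (v : Fin N → Fin (k + 1) → ℝ)
    (hv : ∀ j a, |v j a| ≤ 1 / (2 * Real.pi * (N + 1)) * (H * Real.log τ)) :
    ∃ J : Finset (Fin N), J.Nonempty ∧ ∀ i, c₁ / r * (H / (2 * Real.pi) * Real.log τ) ≤
      (Starts (F i) τ T₁ (T₁ + H) r (fun a => ∑ j ∈ J, v j a) : ℝ) ∧
      c₁ / r * (H / (2 * Real.pi) * Real.log τ) ≤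
      (PatternsInTranslates.P (F i) τ T₁ (T₁ + H) r (fun a => ∑ j ∈ J, v j a) Finset.univ : ℝ) := by
  have hpi := Real.pi_pos
  have hlog : 0 < Real.log τ := Real.log_pos hτ
  set σ : ℝ := 2 * Real.pi / Real.log τ with hσ
  have hσ0 : 0 < σ := by positivity
  have hS' : ∀ i, ∀ x ∈ S i, T₁ ≤ x ∧ x ≤ T₁ + H := fun i x hx =>
    ⟨(PatternsInTranslates.ord_bd (hS i x hx)).1.le, (PatternsInTranslates.ord_bd (hS i x hx)).2⟩
  obtain ⟨J, hJ, h1⟩ := h S T₁ H (r * σ) hH (mul_pos hr hσ0) hrH hS' hU (fun j a => v j a * σ)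
    (fun j a => by
      rw [abs_mul, abs_of_pos hσ0]
      have h2 := mul_le_mul_of_nonneg_right (hv j a) hσ0.le
      have e : 1 / (2 * Real.pi * (N + 1)) * (H * Real.log τ) * σ = H / (N + 1) := by
        rw [hσ]; field_simp
      rw [e] at h2
      have h3 := mul_le_mul_of_nonneg_left h2 (Nat.cast_nonneg N (α := ℝ))
      refine h3.trans ?_
      rw [mul_div_assoc', div_le_iff₀ (by positivity)]
      nlinarith)
  refine ⟨J, hJ, fun i => ?_⟩
  have e1 : c₁ * (H / (r * σ)) = c₁ / r * (H / (2 * Real.pi) * Real.log τ) := by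
    rw [hσ]; field_simp
  have h2 := h1 i
  rw [e1] at h2
  have e2 : (fun a => -∑ j ∈ J, v j a * σ) = fun a => (0 - ∑ j ∈ J, v j a) * σ := by
    funext a
    rw [← Finset.sum_mul]
    ring
  rw [e2] at h2
  exact ⟨h2.trans (by exact_mod_cast bs_le_Starts (hfin i) hτ r _ (hS i)),
    h2.trans (by exact_mod_cast bs_le_P (hfin i) hτ r _ (hS i))⟩

/-- several L-functions -/
theorem several (k s : ℕ) (h r : ℝ) (hh : 0 < h) (hh1 : h ≤ 1) (hc : c h < 2) (hr : 0 < r) :
    ∃ (n : ℕ) (c₀ κ : ℝ), 0 < c₀ ∧ 0 < κ ∧ ∀ (q : Fin s → ℕ) [∀ i, NeZero (q i)]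
      (χ : ∀ i, DirichletCharacter ℂ (q i)), (∀ i, (χ i).IsPrimitive) →
      ∃ T₀ : ℝ, ∀ T : ℝ, T₀ ≤ T → ∀ H : ℝ, T ^ h ≤ H → H ≤ T →
      ∀ v : Fin n → Fin (k + 1) → ℝ, (∀ j a, |v j a| ≤ κ * (H * Real.log T)) →
      ∃ J : Finset (Fin n), J.Nonempty ∧ ∀ i, c₀ * (H / (2 * Real.pi) * Real.log T) ≤
        (Starts (DirichletCharacter.LFunction (χ i)) T T (T + H) r (fun a => ∑ j ∈ J, v j a) : ℝ) := by
  have hpi := Real.pi_pos
  set r' : ℝ := min r (9 / (10 * h)) with hr'
  have hr'0 : 0 < r' := lt_min hr (by positivity)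
  have hr'r : r' ≤ r := min_le_left _ _
  have hhr : h * r' ≤ 9 / 10 := by
    have h1 : r' ≤ 9 / (10 * h) := min_le_right _ _
    have h2 := mul_le_mul_of_nonneg_left h1 hh.le
    have e : h * (9 / (10 * h)) = 9 / 10 := by field_simp
    linarith
  have hp0 : 0 < 2 - c h := by linarith
  obtain ⟨N, c₁, hc₁, hmain⟩ := Pool.Agent.Run7.h587.DHZ.main k s
    (δ := r' * ((2 - c h) / 2)) (by positivity)
  refine ⟨N, c₁ / r', 1 / (2 * Real.pi * (N + 1)), by positivity, by positivity,
    fun q _ χ hχ => ?_⟩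
  have h1 := fun i => Pool.Agent.TH300.ZS.nbhd_asym (H370.good_dirichlet (χ i) (hχ i)) hh hh1
    (show 0 < (2 - c h) / 2 by linarith)
  choose T₁ hT₁ h2 using h1
  obtain ⟨T₂, hT₂⟩ := ((tendsto_rpow_atTop hh).eventually_ge_atTop (r' + 1)).exists_forall_of_atTop
  obtain ⟨T₃, hT₃⟩ := (Real.tendsto_log_atTop.eventually_ge_atTop
    (2 * Real.pi)).exists_forall_of_atTop
  refine ⟨max (max (∑ i, |T₁ i|) T₂) (max T₃ 10), fun T hT H hH hHT v hv => ?_⟩
  have hTT1 : ∀ i, T₁ i ≤ T := fun i => by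
    have h3 : |T₁ i| ≤ ∑ i, |T₁ i| :=
      Finset.single_le_sum (fun i _ => abs_nonneg (T₁ i)) (Finset.mem_univ i)
    exact ((le_abs_self _).trans h3).trans (((le_max_left _ _).trans (le_max_left _ _)).trans hT)
  have hTT2 := hT₂ T (((le_max_right _ _).trans (le_max_left _ _)).trans hT)
  have hTT3 := hT₃ T (((le_max_left _ _).trans (le_max_right _ _)).trans hT)
  have hT10 : 10 ≤ T := ((le_max_right _ _).trans (le_max_right _ _)).trans hT
  have hHpos : 0 < H := by linarith
  have h3 := fun i => h2 i T (hTT1 i) H hH hHT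
  choose S hS hSU using h3
  obtain ⟨J, hJ, h4⟩ := step hc₁ hmain (F := fun i => DirichletCharacter.LFunction (χ i))
    (τ := T) (T₁ := T) (H := H) (r := r')
    (fun i => PatternsInTranslates.zeros_finite (χ i) (hχ i) T (T + H) (by linarith))
    (by linarith) hHpos hr'0 (by
      have h5 : 2 * Real.pi / Real.log T ≤ 1 := by
        rw [div_le_one (by linarith)]
        exact hTT3
      have h6 : r' * (2 * Real.pi / Real.log T) ≤ r' * 1 := mul_le_mul_of_nonneg_left h5 hr'0.le
      linarith) S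
    (fun i x hx => by
      obtain ⟨a1, a2, a3, a4⟩ := hS i x hx
      rw [mul_comm] at a3 a4
      exact ⟨by rw [PatternsInTranslates.zeros_eq]; exact a3, a4⟩)
    (fun i => by
      have h5 := hSU i r' hr'0 hhr
      rw [← PatternsInTranslates.c_eq hh, c_eq'] at h5
      refine le_trans (le_of_eq ?_) h5
      ring) v hv
  refine ⟨J, hJ, fun i => (h4 i).1.trans ?_⟩
  have h5 := PatternsInTranslates.zeros_finite (χ i) (hχ i) T (T + H) (by linarith)
  exact_mod_cast Starts_mono h5 T hr'r _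

/-- zeta, in the whole range -/
theorem zeta_sums (k : ℕ) (r : ℝ) (hr : 0 < r) :
    ∃ (n : ℕ) (c₀ κ : ℝ), 0 < c₀ ∧ 0 < κ ∧ ∃ T₀ : ℝ, ∀ T : ℝ, T₀ ≤ T →
      ∀ v : Fin n → Fin (k + 1) → ℝ, (∀ j a, |v j a| ≤ κ * (T * Real.log T)) →
      (∀ j a b, a < b → v j a + r ≤ v j b) →
      ∃ J : Finset (Fin n), J.Nonempty ∧ c₀ * (T / (2 * Real.pi) * Real.log T) ≤
        (Starts riemannZeta T 0 T r (fun a => ∑ j ∈ J, v j a) : ℝ) ∧
        c₀ * (T / (2 * Real.pi) * Real.log T) ≤
        (Nk k T (fun l => ∑ j ∈ J, (v j l.castSucc - v j (Fin.last k)) - r)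
          (fun l => ∑ j ∈ J, (v j l.castSucc - v j (Fin.last k)) + r) : ℝ) := by
  have hpi := Real.pi_pos
  have hcn := H370.Expl.cMTinv_num
  have hcg := H344.cMTinv_ge
  set r' : ℝ := min r (9 / 10) with hr'
  have hr'0 : 0 < r' := lt_min hr (by norm_num)
  have hr'r : r' ≤ r := min_le_left _ _
  have hr'9 : r' ≤ 9 / 10 := min_le_right _ _
  set p : ℝ := 2 - PatternsInTranslates.cMT⁻¹ with hp
  have hp0 : 0 < p := by
    rw [hp, PatternsInTranslates.cMT_inv]
    norm_num at hcn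
    linarith
  have hp1 : p ≤ 1 := by
    rw [hp, PatternsInTranslates.cMT_inv]
    linarith
  obtain ⟨T₀, hT₀, hz⟩ := PatternsInTranslates.zeta_data p hp0 (by linarith)
  obtain ⟨N, c₁, hc₁, hmain⟩ := Pool.Agent.Run7.h587.DHZ.main k 1
    (δ := r' * (p / 2)) (by positivity)
  refine ⟨N, c₁ / r', 1 / (2 * Real.pi * (N + 1)), by positivity, by positivity, T₀,
    fun T hT v hv hsep => ?_⟩
  obtain ⟨-, hlog1, S, hS, hU⟩ := hz T hT
  have hT10 : 10 ≤ T := hT₀.trans hT
  have hfin := PatternsInTranslates.zeros_finite_zeta T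
  obtain ⟨J, hJ, h4⟩ := step hc₁ hmain (F := fun _ => riemannZeta)
    (τ := T) (T₁ := 0) (H := T) (r := r')
    (fun _ => by rw [zero_add]; exact hfin)
    (by linarith) (by linarith) hr'0 (by
      have := PatternsInTranslates.scale_le hr'0 hr'9 hlog1
      linarith) (fun _ => S)
    (fun _ => by rw [zero_add]; exact hS)
    (fun _ => by
      have h5 := hU r' hr'0 hr'9
      rw [← hp] at h5
      refine le_trans ?_ h5
      have : 0 ≤ r' * T := by positivity
      nlinarith [mul_nonneg this hp0.le]) v hv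
  have h40 := h4 0
  simp only [zero_add] at h40
  refine ⟨J, hJ, h40.1.trans (by exact_mod_cast Starts_mono hfin T hr'r _), h40.2.trans ?_⟩
  have h6 := P_mono hfin T hr'r (fun a => ∑ j ∈ J, v j a) Finset.univ
  have hsep' : ∀ a b : Fin (k + 1), a < b → ∑ j ∈ J, v j a + r ≤ ∑ j ∈ J, v j b := by
    intro a b hab
    obtain ⟨j₀, hj₀⟩ := hJ
    have h7 : ∑ j ∈ J, (v j b - v j a) ≥ v j₀ b - v j₀ a :=
      Finset.single_le_sum (f := fun j => v j b - v j a)
        (fun j _ => by have := hsep j a b hab; linarith) hj₀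
    rw [Finset.sum_sub_distrib] at h7
    have := hsep j₀ a b hab
    linarith
  obtain ⟨ι, hι, h7⟩ := PatternsInTranslates.P_le_Nk (T := T) (r := r)
    (fun a => ∑ j ∈ J, v j a) (by
      intro a b hab
      rcases lt_or_gt_of_ne hab with h | h
      · have := hsep' a b h
        rw [abs_sub_comm]
        exact le_trans (by linarith) (le_abs_self _)
      · have := hsep' b a h
        exact le_trans (by linarith) (le_abs_self _))
    (I := Finset.univ) (by rw [Finset.card_univ, Fintype.card_fin])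
  have hid : ι = id := by
    have h8 : StrictMono ι := hι
    have := (StrictMono.range_inj (f := ι) (g := id) h8 strictMono_id).1 (by
      rw [Set.range_id]
      exact Set.range_eq_univ.2 (Finite.surjective_of_injective h8.injective))
    exact this
  subst hid
  simp only [id] at h7
  have e : ∀ l : Fin k, ∑ j ∈ J, (v j l.castSucc - v j (Fin.last k)) =
      ∑ j ∈ J, v j l.castSucc - ∑ j ∈ J, v j (Fin.last k) := fun l => Finset.sum_sub_distrib ..
  simp only [e]
  exact_mod_cast h6.trans h7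

end proof

/-- **Szemerédi's theorem for the zeros.** -/
theorem result :
    -- (1) finite sums, in terms of the counting functions of the problem
    (∀ (k : ℕ) (r : ℝ), 0 < r →
      ∃ (n : ℕ) (c₀ κ : ℝ), 0 < c₀ ∧ 0 < κ ∧ ∃ T₀ : ℝ, ∀ T : ℝ, T₀ ≤ T →
      ∀ v : Fin n → Fin (k + 1) → ℝ, (∀ j a, |v j a| ≤ κ * (T * Real.log T)) →
      (∀ j a b, a < b → v j a + r ≤ v j b) →
      ∃ J : Finset (Fin n), J.Nonempty ∧ c₀ * (T / (2 * Real.pi) * Real.log T) ≤
        (Starts riemannZeta T 0 T r (fun a => ∑ j ∈ J, v j a) : ℝ) ∧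
        c₀ * (T / (2 * Real.pi) * Real.log T) ≤
        (Nk k T (fun l => ∑ j ∈ J, (v j l.castSucc - v j (Fin.last k)) - r)
          (fun l => ∑ j ∈ J, (v j l.castSucc - v j (Fin.last k)) + r) : ℝ)) ∧
    -- (2) multiples of a given set of numbers
    (∀ (k : ℕ) (r : ℝ), 0 < r →
      ∃ (D : ℕ) (c₀ κ : ℝ), 0 < c₀ ∧ 0 < κ ∧ ∃ T₀ : ℝ, ∀ T : ℝ, T₀ ≤ T →
      ∀ x : Fin (k + 1) → ℝ, (∀ a, |x a| ≤ κ * (T * Real.log T)) →
      (∀ a b, a < b → x a + r ≤ x b) →
      ∃ j : ℕ, 1 ≤ j ∧ j ≤ D ∧ c₀ * (T / (2 * Real.pi) * Real.log T) ≤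
        (Starts riemannZeta T 0 T r (fun a => j * x a) : ℝ) ∧
        c₀ * (T / (2 * Real.pi) * Real.log T) ≤
        (Nk k T (fun l => j * (x l.castSucc - x (Fin.last k)) - r)
          (fun l => j * (x l.castSucc - x (Fin.last k)) + r) : ℝ)) ∧
    -- (3) several L-functions at once, in short intervals
    (∀ (k s : ℕ) (h r : ℝ), 0 < h → h ≤ 1 → c h < 2 → 0 < r →
      ∃ (n : ℕ) (c₀ κ : ℝ), 0 < c₀ ∧ 0 < κ ∧ ∀ (q : Fin s → ℕ) [∀ i, NeZero (q i)]
      (χ : ∀ i, DirichletCharacter ℂ (q i)), (∀ i, (χ i).IsPrimitive) →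
      ∃ T₀ : ℝ, ∀ T : ℝ, T₀ ≤ T → ∀ H : ℝ, T ^ h ≤ H → H ≤ T →
      ∀ v : Fin n → Fin (k + 1) → ℝ, (∀ j a, |v j a| ≤ κ * (H * Real.log T)) →
      ∃ J : Finset (Fin n), J.Nonempty ∧ ∀ i, c₀ * (H / (2 * Real.pi) * Real.log T) ≤
        (Starts (DirichletCharacter.LFunction (χ i)) T T (T + H) r
          (fun a => ∑ j ∈ J, v j a) : ℝ)) ∧
    c 1 < 1.3276 ∧ ∀ᶠ h in 𝓝 (1 : ℝ), c h < 2 := by
  have hc1 : c 1 < 1.3276 := by
    have h1 : c 1 = H370.cMTinv := by
      rw [← PatternsInTranslates.cMT_inv]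
      unfold c
      rw [div_one, one_mul]
      have : PatternsInTranslates.cMT = cMT := rfl
      rw [this]
      ring
    rw [h1]
    have := H370.Expl.cMTinv_num
    norm_num at this ⊢
    linarith
  refine ⟨zeta_sums, fun k r hr => ?_, several, hc1, ?_⟩
  · obtain ⟨n, c₀, κ, hc₀, hκ, T₀, h⟩ := zeta_sums k r hr
    refine ⟨n, c₀, κ, hc₀, hκ, T₀, fun T hT x hx hsep => ?_⟩
    obtain ⟨J, hJ, h1⟩ := h T hT (fun _ => x) (fun _ => hx) (fun _ => hsep)
    simp only [Finset.sum_const, nsmul_eq_mul] at h1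
    refine ⟨J.card, hJ.card_pos, ?_, h1⟩
    have := Finset.card_le_univ J
    rwa [Fintype.card_fin] at this
  · have hcont : ContinuousAt c 1 := by
      unfold c
      exact (continuousAt_const.div continuousAt_id one_ne_zero).add
        (continuousAt_id.mul continuousAt_const)
    exact hcont.eventually (gt_mem_nhds (by norm_num at hc1 ⊢; linarith))

end Pool.Agent.Results.MP_67227b_nt.FiniteSumPatterns
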