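import Mathlib
import Pool.Agent.Run7.h422.PP.N4

/-!
# All correlations along the de Bruijn-Newman heat flow

`H_t(z) = ∫_0^∞ e^{t u²} Φ(u) cos (z u) du` is the de Bruijn-Newman family: `H_0(z)` is the Riemann
function `ξ(1/2 + i z/2) / 8`, and the heights of the zeros of zeta are the numbers `Re z / 2`,
`H_0(z) = 0`. We consider, for every `k`, the `(k+1)`-tuples of different zeros with heights
`γ_0, ..., γ_k` in `(0, T]` and normalised differences `(γ_i - γ_0) log T / (2 π)`, `1 ≤ i ≤ k`, in a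
box, at a time `t = t(T)`. Unconditionally:

(1) If `t(T) log² T → 0`, then every continuous law for the `(k+1)`-level correlations holds for the
zeros of zeta if and only if it holds for the zeros of `H_{t(T)}`. In particular the conjecture of
the problem (the determinant of the sine kernel) is equivalent to the same conjecture for `H_{t(T)}`.

Moreover, if such a law holds for zeta, it holds up to `ε` for `H_t` at all times `t ≤ δ / log² T`, with `δ > 0`
depending only on `ε` and the box.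

(2) If `t log² T ≥ τ₀` (and `t log T ≤ A`), then all correlations of the zeros of `H_t` are close to those of the
integers: for every box whose corners have no integral coordinates the
number of tuples, divided by the number of zeros, differs by at most `ε` from the number of the vectors of
different nonzero integers in the box, if `τ₀` is large enough (depending on the box, `ε` and `A`) and `T` is large. The
same is true for the tuples of real simple zeros of `H_t` alone (again divided by the number of all zeros).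

(3) So no continuous law for the `(k+1)`-level correlations, `k ≥ 1`, in particular not the law of the sine kernel, holds
for `H_t` at the time `t = τ / log² T` with a large constant `τ` (or at later times).

So the correlations change exactly at the time scale `1 / log² T`, the square of the mean distance of
the zeros: the critical time is a constant multiple of it.

(1) is proved with the comparison theorem `Pool.Agent.R838.ST.cmp`, (2) with the theorem on regular
zeros `Pool.Agent.R838.CR.fin_irr`, the theorem on real simple zeros `Pool.Agent.R838.IS.ess_large` and the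
moments of the number of zeros in short windows `Pool.Agent.R838.ST.midw`; these are starting modules (see the docstring of the starting result
`MP_cd509c_nt.HeatFlowSpacing` for their authors).
-/

set_option autoImplicit false

open Filter Topology

namespace Pool.Agent.Results.MP_67227b_nt.HeatFlowCorrelations

/-- The kernel `Φ(u) = ∑_{n ≥ 1} (2 π² n⁴ e^{9u} - 3 π n² e^{5u}) exp (-π n² e^{4u})`. -/
noncomputable def Phi (u : ℝ) : ℝ := ∑' n : ℕ,
  (2 * Real.pi ^ 2 * ((n : ℝ) + 1) ^ 4 * Real.exp (9 * u) -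
    3 * Real.pi * ((n : ℝ) + 1) ^ 2 * Real.exp (5 * u)) *
    Real.exp (-(Real.pi * ((n : ℝ) + 1) ^ 2 * Real.exp (4 * u)))

/-- The de Bruijn-Newman family `H_t(z) = ∫_0^∞ e^{t u²} Φ(u) cos (z u) du`. -/
noncomputable def H (t : ℝ) (z : ℂ) : ℂ :=
  ∫ u in Set.Ioi (0 : ℝ), ((Real.exp (t * u ^ 2) * Phi u : ℝ) : ℂ) * Complex.cos (z * u)

/-- The nontrivial zeros of zeta with multiplicity: `(ρ, i)`, `i` less than the multiplicity of `ρ`. -/
def ZetaZeros : Set (ℂ × ℕ) :=
  {p | 0 < p.1.re ∧ p.1.re < 1 ∧ p.2 < analyticOrderNatAt riemannZeta p.1}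

/-- The zeros of `H_t` with multiplicity. -/
def HZeros (t : ℝ) : Set (ℂ × ℕ) := {p | p.2 < analyticOrderNatAt (H t) p.1}

/-- The `(k+1)`-tuples of different elements of `Z` with heights `h` in `(0, T]`, such that the
normalised differences `(h (x_i) - h (x_0)) log T / (2 π)`, `1 ≤ i ≤ k`, are in `[α_i, β_i]`. -/
def Tuples (Z : Set (ℂ × ℕ)) (h : ℂ → ℝ) {k : ℕ} (T : ℝ) (α β : Fin k → ℝ) :
    Set (Fin (k + 1) → ℂ × ℕ) :=
  {x | (∀ i, x i ∈ Z) ∧ Function.Injective x ∧ (∀ i, 0 < h (x i).1 ∧ h (x i).1 ≤ T) ∧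
    ∀ i : Fin k, α i ≤ (h (x i.succ).1 - h (x 0).1) * (Real.log T / (2 * Real.pi)) ∧
      (h (x i.succ).1 - h (x 0).1) * (Real.log T / (2 * Real.pi)) ≤ β i}

/-- The number of tuples of zeros of zeta; the height is the imaginary part. -/
noncomputable def numZeta {k : ℕ} (T : ℝ) (α β : Fin k → ℝ) : ℝ :=
  ((Tuples ZetaZeros (fun z => z.im) T α β).ncard : ℝ)

/-- The number of tuples of zeros of `H_t`; the height is half of the real part. -/
noncomputable def numH {k : ℕ} (t T : ℝ) (α β : Fin k → ℝ) : ℝ :=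
  ((Tuples (HZeros t) (fun z => z.re / 2) T α β).ncard : ℝ)

/-- The number of tuples of real simple zeros of `H_t`. -/
noncomputable def numReal {k : ℕ} (t T : ℝ) (α β : Fin k → ℝ) : ℝ :=
  (({x | x ∈ Tuples (HZeros t) (fun z => z.re / 2) T α β ∧
    ∀ i, (x i).1.im = 0 ∧ analyticOrderNatAt (H t) (x i).1 = 1} : Set (Fin (k + 1) → ℂ × ℕ)).ncard : ℝ)

/-- The number of zeros of `H_t` with heights in `(0, T]`. -/
noncomputable def totalH (t T : ℝ) : ℝ :=
  (({p | p ∈ HZeros t ∧ 0 < p.1.re / 2 ∧ p.1.re / 2 ≤ T} : Set (ℂ × ℕ)).ncard : ℝ)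

/-- The law `Ψ`: the number of tuples, divided by `T log T / (2 π)`, converges to `Ψ(α, β)`, for all
`α_i < β_i`. -/
def Law (k : ℕ) (N : ℝ → (Fin k → ℝ) → (Fin k → ℝ) → ℝ)
    (Ψ : (Fin k → ℝ) → (Fin k → ℝ) → ℝ) : Prop :=
  ∀ α β : Fin k → ℝ, (∀ i, α i < β i) →
    Tendsto (fun T : ℝ => N T α β / (T * Real.log T / (2 * Real.pi))) atTop (𝓝 (Ψ α β))

/-- `Ψ` is continuous on the set of all `(α, β)` with `α_i < β_i`. -/
def ContinuousLaw (k : ℕ) (Ψ : (Fin k → ℝ) → (Fin k → ℝ) → ℝ) : Prop :=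
  ContinuousOn (fun x : (Fin k → ℝ) × (Fin k → ℝ) => Ψ x.1 x.2) {x | ∀ i, x.1 i < x.2 i}

/-- The determinant of the sine kernel `sin π(x - y) / (π(x - y))` (`1` if `x = y`) at the points
`0, u_1, ..., u_k`. -/
noncomputable def sineDet {k : ℕ} (u : Fin k → ℝ) : ℝ :=
  Matrix.det (Matrix.of fun i j : Fin (k + 1) =>
    Real.sinc (Real.pi * ((Fin.cons 0 u : Fin (k + 1) → ℝ) i - (Fin.cons 0 u : Fin (k + 1) → ℝ) j)))

/-- The vectors of different nonzero integers in the box. -/
def IntegerVectors {k : ℕ} (α β : Fin k → ℝ) : Set (Fin k → ℤ) :=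
  {a | Function.Injective a ∧ ∀ i, a i ≠ 0 ∧ α i ≤ a i ∧ (a i : ℝ) ≤ β i}

/-- **Main theorem.** (1) Let `t(T) ≥ 0` and `t(T) log² T → 0`. For every `k` a continuous law for the
`(k+1)`-level correlations holds for the zeros of zeta if and only if it holds for the zeros of
`H_{t(T)}`; in particular this is true for the law of the sine kernel. If it holds for zeta, then for every box
`[α, β]` and `ε > 0` there are `δ > 0`, `T₀` such that it holds up to `ε` for this box and the zeros of `H_t` if `T ≥ T₀`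
and `0 ≤ t log² T ≤ δ`. (2) Let `A > 0`. There is `c > 0` such that `H_t` has `N ≥ c T log T` zeros up to `T` for
large `T` and `0 ≤ t ≤ A / log T`. For all `k`, all boxes `[α, β]` such that no `α_i`
and no `β_i` is an integer, and all `ε > 0` there are `τ₀`, `T₀` such that for `T ≥ T₀`,
`τ₀ / log² T ≤ t ≤ A / log T` both the number of tuples of zeros and the number of tuples of real simple zeros
of `H_t` with normalised differences in the box are the number of vectors of different nonzero integers in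
the box times `N`, up to an error at most `ε N`. (3) For every `k ≥ 1` and every continuous law for the `(k+1)`-level
correlations, in particular for the law of the sine kernel, there is `τ₀` such that it is false for the
zeros of `H_{t(T)}` for every function `t(T)` with `τ₀ / log² T ≤ t(T) ≤ A / log T` for large `T`. -/
theorem result :
    (∀ t : ℝ → ℝ, (∀ T, 0 ≤ t T) → Tendsto (fun T => t T * Real.log T ^ 2) atTop (𝓝 0) → ∀ k : ℕ,
      (∀ Ψ : (Fin k → ℝ) → (Fin k → ℝ) → ℝ, ContinuousLaw k Ψ →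
        (Law k numZeta Ψ ↔ Law k (fun T => numH (t T) T) Ψ)) ∧
      (Law k numZeta (fun α β => ∫ u in Set.Icc α β, sineDet u) ↔
        Law k (fun T => numH (t T) T) fun α β => ∫ u in Set.Icc α β, sineDet u)) ∧
    (∀ (k : ℕ) (Ψ : (Fin k → ℝ) → (Fin k → ℝ) → ℝ), ContinuousLaw k Ψ → Law k numZeta Ψ →
      ∀ (α β : Fin k → ℝ) (ε : ℝ), (∀ i, α i < β i) → 0 < ε →
      ∃ δ T₀ : ℝ, 0 < δ ∧ 2 ≤ T₀ ∧ ∀ T t : ℝ, T₀ ≤ T → 0 ≤ t → t * Real.log T ^ 2 ≤ δ →
        |numH t T α β / (T * Real.log T / (2 * Real.pi)) - Ψ α β| ≤ ε) ∧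
    (∀ A : ℝ, 0 < A →
      (∃ c T₀ : ℝ, 0 < c ∧ 2 ≤ T₀ ∧ ∀ T t : ℝ, T₀ ≤ T → 0 ≤ t → t * Real.log T ≤ A →
        c * (T * Real.log T) ≤ totalH t T) ∧
      (∀ (k : ℕ) (α β : Fin k → ℝ) (ε : ℝ), (∀ i, ∀ a : ℤ, α i ≠ a) → (∀ i, ∀ a : ℤ, β i ≠ a) → 0 < ε →
        ∃ τ₀ T₀ : ℝ, 0 < τ₀ ∧ 2 ≤ T₀ ∧ ∀ T t : ℝ, T₀ ≤ T → τ₀ ≤ t * Real.log T ^ 2 → t * Real.log T ≤ A →
          |numH t T α β - ((IntegerVectors α β).ncard : ℝ) * totalH t T| ≤ ε * totalH t T ∧
          |numReal t T α β - ((IntegerVectors α β).ncard : ℝ) * totalH t T| ≤ ε * totalH t T) ∧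
      (∀ k : ℕ, 1 ≤ k → ∀ Ψ : (Fin k → ℝ) → (Fin k → ℝ) → ℝ, ContinuousLaw k Ψ → ∃ τ₀ : ℝ, 0 < τ₀ ∧
        ∀ t : ℝ → ℝ, (∀ᶠ T in atTop, τ₀ ≤ t T * Real.log T ^ 2 ∧ t T * Real.log T ≤ A) →
        ¬ Law k (fun T => numH (t T) T) Ψ) ∧
      (∀ k : ℕ, 1 ≤ k → ∃ τ₀ : ℝ, 0 < τ₀ ∧
        ∀ t : ℝ → ℝ, (∀ᶠ T in atTop, τ₀ ≤ t T * Real.log T ^ 2 ∧ t T * Real.log T ≤ A) →
        ¬ Law k (fun T => numH (t T) T) fun α β => ∫ u in Set.Icc α β, sineDet u)) := by
  have key : ∀ t : ℝ → ℝ, (∀ T, 0 ≤ t T) → Tendsto (fun T => t T * Real.log T ^ 2) atTop (𝓝 0) → ∀ k : ℕ,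
      ∀ Ψ : (Fin k → ℝ) → (Fin k → ℝ) → ℝ, ContinuousLaw k Ψ →
        (Law k numZeta Ψ ↔ Law k (fun T => numH (t T) T) Ψ) := fun t ht h1 k Ψ hΨ =>
    Run7.h422.PP.law_smallK ht h1 k hΨ
  refine ⟨fun t ht h1 k => ⟨key t ht h1 k, key t ht h1 k _ (Run7.h422.PP.box_cts Run7.h422.PP.sdet_cts)⟩, ?_, ?_⟩
  · intro k Ψ hΨ hlaw α β ε hαβ hε
    refine Run7.h422.PP.soft_small fun t ht h2 => ?_
    have h3 := (key t ht h2 k Ψ hΨ).1 hlaw α β hαβ
    rw [Metric.tendsto_nhds] at h3
    filter_upwards [h3 ε hε] with T h4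
    rw [Real.dist_eq] at h4
    exact h4.le
  intro A hA
  obtain ⟨c, T1, hc, hT1, hge⟩ := Run7.h422.PP.nh_geU hA
  have hge' : ∀ T t : ℝ, T1 ≤ T → 0 ≤ t → t * Real.log T ≤ A → c * (T * Real.log T) ≤ totalH t T := hge
  have hlat : ∀ (k : ℕ) (α β : Fin k → ℝ) (ε : ℝ), (∀ i, ∀ a : ℤ, α i ≠ a) → (∀ i, ∀ a : ℤ, β i ≠ a) → 0 < ε →
        ∃ τ₀ T₀ : ℝ, 0 < τ₀ ∧ 2 ≤ T₀ ∧ ∀ T t : ℝ, T₀ ≤ T → τ₀ ≤ t * Real.log T ^ 2 → t * Real.log T ≤ A →
          |numH t T α β - ((IntegerVectors α β).ncard : ℝ) * totalH t T| ≤ ε * totalH t T ∧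
          |numReal t T α β - ((IntegerVectors α β).ncard : ℝ) * totalH t T| ≤ ε * totalH t T := by
    intro k α β ε hα hβ hε
    refine Run7.h422.PP.soft_big hA fun t ht hA' => ?_
    have ht0 : ∀ᶠ T in atTop, 0 < t T := by
      filter_upwards [ht.eventually_gt_atTop 0, eventually_gt_atTop (1 : ℝ)] with T h2 h3
      have h5 : 0 < Real.log T ^ 2 := by have := Real.log_pos h3; positivity
      exact (pos_iff_pos_of_mul_pos h2).2 h5
    have hN : ∀ᶠ T in atTop, 0 < totalH (t T) T := by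
      filter_upwards [hA', ht0, eventually_ge_atTop T1] with T h1 h2 h3
      refine lt_of_lt_of_le ?_ (hge' T (t T) h3 h2.le h1)
      have hT : 1 < T := by linarith
      have := Real.log_pos hT
      positivity
    have h1 := Run7.h422.PP.near_of hε hN (Run7.h422.PP.ht_latticeKS hA hA' ht hα hβ)
    have h2 := Run7.h422.PP.near_of hε hN (Run7.h422.PP.ht_goodK hA hA' ht hα hβ)
    filter_upwards [h1, h2] with T q1 q2
    exact ⟨q1, q2⟩
  have hfail : ∀ k : ℕ, 1 ≤ k → ∀ Ψ : (Fin k → ℝ) → (Fin k → ℝ) → ℝ, ContinuousLaw k Ψ → ∃ τ₀ : ℝ, 0 < τ₀ ∧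
        ∀ t : ℝ → ℝ, (∀ᶠ T in atTop, τ₀ ≤ t T * Real.log T ^ 2 ∧ t T * Real.log T ≤ A) →
        ¬ Law k (fun T => numH (t T) T) Ψ := by
    intro k hk Ψ hΨ
    obtain ⟨k, rfl⟩ := Nat.exists_eq_succ_of_ne_zero (by omega : k ≠ 0)
    have hk : 0 < c * (2 * Real.pi) := by have := Real.pi_pos; positivity
    obtain ⟨α, β₁, β₂, hα, hβ1, hβ2, hl1, hl2, hd, hi1, hi2⟩ :=
      Run7.h422.PP.fail_box hΨ (κ := c * (2 * Real.pi) / 4) (by positivity)
    obtain ⟨τ1, S1, hτ1, hS1, hb1⟩ := hlat (k + 1) α β₁ (1 / 4) hα hβ1 (by norm_num)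
    obtain ⟨τ2, S2, hτ2, hS2, hb2⟩ := hlat (k + 1) α β₂ (1 / 4) hα hβ2 (by norm_num)
    have hi1' : ((IntegerVectors α β₁).ncard : ℝ) = 0 := hi1
    have hi2' : ((IntegerVectors α β₂).ncard : ℝ) = 1 := hi2
    refine ⟨max τ1 τ2, lt_max_of_lt_left hτ1, fun t ht hall => ?_⟩
    have hp := hall α β₁ hl1
    have hq := hall α β₂ hl2
    have hX : ∀ᶠ T : ℝ in atTop, 0 < T * Real.log T / (2 * Real.pi) := by
      filter_upwards [eventually_gt_atTop (1 : ℝ)] with T hT
      have h1 := Real.log_pos hT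
      have h2 := Real.pi_pos
      positivity
    refine Run7.h422.PP.fail_abs (n := fun T => totalH (t T) T / (T * Real.log T / (2 * Real.pi)))
      hk ?_ ?_ ?_ hp hq hd
    · filter_upwards [ht, eventually_ge_atTop S1, hX] with T t1 t2 t3
      have h1 := (hb1 T (t T) t2 ((le_max_left _ _).trans t1.1) t1.2).1
      rw [hi1', zero_mul, sub_zero] at h1
      have h2 := (le_abs_self _).trans h1
      have e : 1 / 4 * (totalH (t T) T / (T * Real.log T / (2 * Real.pi))) =
          1 / 4 * totalH (t T) T / (T * Real.log T / (2 * Real.pi)) := by ring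
      rw [e]
      exact div_le_div_of_nonneg_right h2 t3.le
    · filter_upwards [ht, eventually_ge_atTop S2, hX] with T t1 t2 t3
      have h1 := (hb2 T (t T) t2 ((le_max_right _ _).trans t1.1) t1.2).1
      rw [hi2', one_mul] at h1
      have h2 := (abs_le.1 h1).1
      have e : (1 - 1 / 4) * (totalH (t T) T / (T * Real.log T / (2 * Real.pi))) =
          (1 - 1 / 4) * totalH (t T) T / (T * Real.log T / (2 * Real.pi)) := by ring
      rw [e]
      refine div_le_div_of_nonneg_right ?_ t3.le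
      linarith
    · filter_upwards [ht, eventually_ge_atTop T1, hX, eventually_gt_atTop (1 : ℝ)] with T t1 t2 t3 t4
      have hL := Real.log_pos t4
      have ht0 : 0 ≤ t T := by
        have h5 : 0 < t T * Real.log T ^ 2 := lt_of_lt_of_le (lt_max_of_lt_left hτ1) t1.1
        exact ((pos_iff_pos_of_mul_pos h5).2 (by positivity)).le
      have h1 := hge' T (t T) t2 ht0 t1.2
      rw [le_div_iff₀ t3]
      have hpi := Real.pi_pos
      have e : c * (2 * Real.pi) * (T * Real.log T / (2 * Real.pi)) = c * (T * Real.log T) := by field_simp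
      rw [e]
      exact h1
  exact ⟨⟨c, T1, hc, hT1, hge'⟩, hlat, hfail, fun k hk =>
    hfail k hk _ (Run7.h422.PP.box_cts Run7.h422.PP.sdet_cts)⟩

end Pool.Agent.Results.MP_67227b_nt.HeatFlowCorrelations
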