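import Pool.Agent.Run7.h613.NG.KLev
import Pool.Agent.Results.MP_67227b_nt.KLevelAlmostAllShort

/-!
# k-level correlations of simple critical zeros in EVERY short interval near typical numbers

No hypothesis is assumed. For `0 < h ≤ 1` put `c h = R0 / h + h (cMT⁻¹ - R0)` and `P h = (2 - c h) / h`, with the
Montgomery-Taylor constant `cMT⁻¹ = 1.3274…` and `R0 = 1.0061…`. Let `0 < η < 1` and `λ = (1 + η) / 2`.

There are `s < 1`, `κ > 0` and a set `S` of integers with `O(X ^ (s + δ))` elements up to `X`, for every `δ > 0`, such that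
for all large real `T` with integral part outside `S` the following is true in EVERY interval `(a, b]` of length at least
`T ^ η` in `[T - T ^ (η + κ), T + T ^ (η + κ)]`: for all the boxes whose sides are long intervals at `r` positions at most,
each used at most `m` times, at every distance up to `T ^ η'`, `η' < η`, the number of tuples of distinct ordinates of simple
critical zeros of primitive Dirichlet L-functions (modulus `1`: the Riemann zeta function) with all the differences from the
first one, which is in `(a, b]`, in the box is at least the proportion `((r + 1) P λ - r - ε) ^ m λ ^ (n + 1)` of the expected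
number. For `r = 1`, in particular for pairs at any distance, the proportion is positive for `η ≥ 0.422`.

So this holds near the values of generic linear forms, at the powers of almost every number and at the denominators of the
convergents of almost every number. The starting theorem `KLevelAlmostAllShort` gives for each `T` the intervals
`(t, t + H]` for all `t ∈ [T, 2T]` outside a set of measure `T ^ (1 - δ)`; it says nothing about all the subintervals of a
window, nor about sparse sequences of heights.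
-/

set_option autoImplicit false

open Filter Topology MeasureTheory

namespace Pool.Agent.Results.MP_67227b_nt.KLevelTypical

open Run7.h613.NG (Typical Generic)
open Pool.Agent.Results.MP_67227b_nt.KLevelAlmostAllShort (tuples P c_eq tuples_eq)

/-- the property of `T`: the lower bound for the number of tuples in every interval `(a, b]` of length at least `T ^ η` in
`[T - T ^ (η + κ), T + T ^ (η + κ)]`, for all boxes with sides of length at least `L` at `r` positions up to `T ^ η'` -/
def Good {n r : ℕ} (k : Fin n → Fin r) (F₀ : ℂ → ℂ) (F : Fin r → ℂ → ℂ) (η η' κ L C T : ℝ) : Prop :=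
  ∀ a b : ℝ, T - T ^ (η + κ) ≤ a → b ≤ T + T ^ (η + κ) → T ^ η ≤ b - a →
    ∀ α β : Fin r → ℝ, (∀ j, 0 ≤ α j ∧ α j + L ≤ β j ∧ β j ≤ T ^ η') →
      C * (∏ i, (β (k i) - α (k i))) * ((b - a) / (2 * Real.pi) * Real.log T) ≤
        ((tuples F₀ (fun i => F (k i)) T a (b - a) (fun i => α (k i)) (fun i => β (k i))).ncard : ℝ)

/-- **Main theorem.** -/
theorem result :
    (∀ (n r m : ℕ) (k : Fin n → Fin r),
      (∀ j, (Finset.univ.filter (fun i => k i = j)).card ≤ m) → 1 ≤ m →
      ∀ η η' ε : ℝ, 0 < η → η < 1 → η' < η → 0 < ε → ε < ((r : ℝ) + 1) * P ((1 + η) / 2) - r →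
      ∃ L : ℝ, 0 < L ∧
      ∀ (q₀ : ℕ) [NeZero q₀] (χ₀ : DirichletCharacter ℂ q₀) (q : Fin r → ℕ) [∀ j, NeZero (q j)]
        (χ : ∀ j, DirichletCharacter ℂ (q j)), χ₀.IsPrimitive → (∀ j, (χ j).IsPrimitive) →
      ∃ s κ : ℝ, 0 < s ∧ s < 1 ∧ 0 < κ ∧
        Typical s (Good k (DirichletCharacter.LFunction χ₀) (fun j => DirichletCharacter.LFunction (χ j)) η η' κ L
          ((((r : ℝ) + 1) * P ((1 + η) / 2) - r - ε) ^ m * ((1 + η) / 2) ^ (n + 1))) ∧
        Generic (Good k (DirichletCharacter.LFunction χ₀) (fun j => DirichletCharacter.LFunction (χ j)) η η' κ L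
          ((((r : ℝ) + 1) * P ((1 + η) / 2) - r - ε) ^ m * ((1 + η) / 2) ^ (n + 1)))) ∧
    (∀ h : ℝ, 0.711 ≤ h → h ≤ 1 → 0 < 2 * P h - 1) ∧
    (∀ h : ℝ, 0.935 ≤ h → h ≤ 1 → 0 < 3 * P h - 2) := by
  refine ⟨?_, KLevelAlmostAllShort.result.2⟩
  intro n r m k hk hm η η' ε hη0 hη1 hη' hε hεr
  have hP : P ((1 + η) / 2) = Run7.h613.NG.PP ((1 + η) / 2) := by
    unfold P Run7.h613.NG.PP
    rw [c_eq]
  rw [hP] at hεr ⊢
  obtain ⟨L, hL, H0⟩ := Run7.h613.NG.levels_typical k hk hm hη0 hη1 hη' hε hεr
  refine ⟨L, hL, ?_⟩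
  intro q₀ _ χ₀ q _ χ h₀ hχ
  obtain ⟨s, κ, hs0, hs1, hκ, H1⟩ := H0 (DirichletCharacter.LFunction χ₀)
    (fun i => DirichletCharacter.LFunction (χ i)) (H370.good_dirichlet χ₀ h₀)
    (Pool.Agent.Y763.PS.alm_prim χ₀ h₀)
    (fun i => H370.good_dirichlet (χ i) (hχ i)) (fun i => Pool.Agent.Y763.PS.alm_prim (χ i) (hχ i))
  have H2 : Typical s (Good k (DirichletCharacter.LFunction χ₀) (fun j => DirichletCharacter.LFunction (χ j)) η η' κ L
      ((((r : ℝ) + 1) * Run7.h613.NG.PP ((1 + η) / 2) - r - ε) ^ m * ((1 + η) / 2) ^ (n + 1))) := by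
    refine H1.mono_large 2 fun T hT2 hT a b ha hb hab α β hαβ => ?_
    rw [tuples_eq _ _ _ _ _ _ (by linarith)]
    exact hT a b ha hb hab α β hαβ
  exact ⟨s, κ, hs0, hs1, hκ, H2, Run7.h613.NG.typical_generic hs0.le hs1 H2⟩

end Pool.Agent.Results.MP_67227b_nt.KLevelTypical
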